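import Pool.Agent.H90ZD.Main

namespace Pool.Agent.Results.MP_ebe6df_ag.SurfaceNegativePart

open Filter Topology Pool.Agent.H90ZD

/-- Over every algebraically closed field `K` of characteristic zero there are an integral
projective surface `X`, a pseudo-effective class `α` in `N_1(X)` and a Zariski decomposition
`α = P + N` whose negative part `N` is not supported on a proper closed subscheme. -/
theorem result (K : Type) [Field K] [IsAlgClosed K] [CharZero K] :
    ∃ (F : Type) (_ : Field F) (_ : Algebra K F) (X : Set (Subalgebra K F)),
      IsProjectiveSurface X ∧ ∃ α P N : N1 X,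
        α ∈ Eff X ∧ α = P + N ∧ (α, P) ∈ closure (RationalPositiveParts X) ∧
        (∀ M, IsMobilityFunction X M → IsZariskiDecomposition X M α P N) ∧
        ¬ SupportedOnProper N :=
  main K

end Pool.Agent.Results.MP_ebe6df_ag.SurfaceNegativePart
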